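import Pool.Agent.W488.IW.Stm

/-!
# IW-LB: the lower bound `p - 1` for the norm of the Beurling transform
(part of helper488's project IW)
-/

set_option autoImplicit false

namespace Pool.Agent.W57.IW.Lb

open Pool.Agent.W488.IW
open MeasureTheory Set Filter Topology

/-! ### derivatives of `z g(|z|^2)` -/

lemma fderiv_radial (g : ℝ → ℝ) (g' : ℝ) (z h : ℂ) (hg : HasDerivAt g g' (‖z‖ ^ 2)) :
    fderiv ℝ (fun w : ℂ => w * ((g (‖w‖ ^ 2) : ℝ) : ℂ)) z h =
      h * ((g (‖z‖ ^ 2) : ℝ) : ℂ) + z * ((g' * (2 * (z.re * h.re + z.im * h.im)) : ℝ) : ℂ) := by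
  have h1 : HasFDerivAt (fun w : ℂ => ‖w‖ ^ 2) (2 • (innerSL ℝ z)) z :=
    (hasStrictFDerivAt_norm_sq z).hasFDerivAt
  have h2 : HasFDerivAt (fun w : ℂ => g (‖w‖ ^ 2)) (g' • (2 • (innerSL ℝ z))) z :=
    hg.comp_hasFDerivAt z h1
  have h3 : HasFDerivAt (fun w : ℂ => ((g (‖w‖ ^ 2) : ℝ) : ℂ))
      (Complex.ofRealCLM.comp (g' • (2 • (innerSL ℝ z)))) z :=
    Complex.ofRealCLM.hasFDerivAt.comp z h2
  have h4 := (hasFDerivAt_id (𝕜 := ℝ) z).mul h3
  rw [show (fun w : ℂ => w * ((g (‖w‖ ^ 2) : ℝ) : ℂ)) =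
    (id * fun w : ℂ => ((g (‖w‖ ^ 2) : ℝ) : ℂ)) from rfl, h4.fderiv]
  have h5 : (inner ℝ z h : ℝ) = z.re * h.re + z.im * h.im := by
    rw [Complex.inner]
    simp
    ring
  simp only [id, _root_.add_apply, _root_.smul_apply, smul_eq_mul,
    ContinuousLinearMap.comp_apply, Complex.ofRealCLM_apply, innerSL_apply_apply, nsmul_eq_mul,
    Nat.cast_ofNat, ContinuousLinearMap.id_apply, h5]
  ring

lemma dz_radial (g : ℝ → ℝ) (g' : ℝ) (z : ℂ) (hg : HasDerivAt g g' (‖z‖ ^ 2)) :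
    dz (fun w : ℂ => w * ((g (‖w‖ ^ 2) : ℝ) : ℂ)) z =
      ((g (‖z‖ ^ 2) + ‖z‖ ^ 2 * g' : ℝ) : ℂ) := by
  unfold dz
  rw [fderiv_radial g g' z 1 hg, fderiv_radial g g' z Complex.I hg]
  have h1 : ‖z‖ ^ 2 = z.re * z.re + z.im * z.im := by
    rw [← Complex.normSq_eq_norm_sq, Complex.normSq_apply]
  rw [h1]
  apply Complex.ext
  · simp
    ring
  · simp
    ring

lemma dzb_radial (g : ℝ → ℝ) (g' : ℝ) (z : ℂ) (hg : HasDerivAt g g' (‖z‖ ^ 2)) :
    dzb (fun w : ℂ => w * ((g (‖w‖ ^ 2) : ℝ) : ℂ)) z = z ^ 2 * (g' : ℂ) := by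
  unfold dzb
  rw [fderiv_radial g g' z 1 hg, fderiv_radial g g' z Complex.I hg]
  apply Complex.ext
  · simp [pow_two]
    ring
  · simp [pow_two]
    ring

/-! ### the cut-off and the profile -/

/-- the cut-off: `1` for `s ≤ 1` and `0` for `s ≥ 2` -/
noncomputable def chi (s : ℝ) : ℝ := Real.smoothTransition (2 - s)

lemma chi_contDiff {n : ℕ∞} : ContDiff ℝ n chi :=
  Real.smoothTransition.contDiff.comp (contDiff_const.sub contDiff_id)

lemma chi_one {s : ℝ} (h : s ≤ 1) : chi s = 1 :=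
  Real.smoothTransition.one_of_one_le (by linarith)

lemma chi_zero {s : ℝ} (h : 2 ≤ s) : chi s = 0 :=
  Real.smoothTransition.zero_of_nonpos (by linarith)

lemma chi_nonneg (s : ℝ) : 0 ≤ chi s := Real.smoothTransition.nonneg _
lemma chi_le (s : ℝ) : chi s ≤ 1 := Real.smoothTransition.le_one _

lemma chi_hasDeriv (s : ℝ) : HasDerivAt chi (deriv chi s) s :=
  ((chi_contDiff (n := 1)).differentiable (by norm_num)).differentiableAt.hasDerivAt

lemma chi_deriv_zero {s : ℝ} (h : s < 1) : deriv chi s = 0 := by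
  have : chi =ᶠ[𝓝 s] fun _ => (1 : ℝ) := by
    filter_upwards [gt_mem_nhds h] with t ht
    exact chi_one ht.le
  rw [this.deriv_eq, deriv_const]

lemma chi_deriv_zero' {s : ℝ} (h : 2 < s) : deriv chi s = 0 := by
  have : chi =ᶠ[𝓝 s] fun _ => (0 : ℝ) := by
    filter_upwards [lt_mem_nhds h] with t ht
    exact chi_zero ht.le
  rw [this.deriv_eq, deriv_const]

lemma chi_deriv_bound : ∃ B : ℝ, 0 ≤ B ∧ ∀ s ∈ Icc (1 : ℝ) 2, |deriv chi s| ≤ B := by
  have hc : ContinuousOn (deriv chi) (Icc 1 2) :=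
    ((chi_contDiff (n := 1)).continuous_deriv le_rfl).continuousOn
  obtain ⟨B, hB⟩ := isCompact_Icc.exists_bound_of_continuousOn hc
  refine ⟨max B 0, le_max_right _ _, fun s hs => ?_⟩
  exact ((Real.norm_eq_abs _).symm.le.trans (hB s hs)).trans (le_max_left _ _)

/-- the profile -/
noncomputable def prof (α η s : ℝ) : ℝ := (s + η) ^ (-α) * chi s

noncomputable def prof' (α η s : ℝ) : ℝ :=
  -α * (s + η) ^ (-α - 1) * chi s + (s + η) ^ (-α) * deriv chi s

lemma prof_hasDeriv (α : ℝ) {η s : ℝ} (h : 0 < s + η) :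
    HasDerivAt (prof α η) (prof' α η s) s := by
  have h1 : HasDerivAt (fun t : ℝ => t + η) 1 s := (hasDerivAt_id s).add_const η
  have h2 : HasDerivAt (fun t : ℝ => (t + η) ^ (-α)) (1 * (-α) * (s + η) ^ (-α - 1)) s :=
    h1.rpow_const (Or.inl h.ne')
  have h3 := h2.mul (chi_hasDeriv s)
  refine h3.congr_deriv ?_
  unfold prof'
  ring

/-- the test function -/
noncomputable def ft (α η : ℝ) (z : ℂ) : ℂ := z * ((prof α η (‖z‖ ^ 2) : ℝ) : ℂ)

lemma ft_contDiff (α : ℝ) {η : ℝ} (hη : 0 < η) : ContDiff ℝ (⊤ : ℕ∞) (ft α η) := by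
  have h0 : ContDiff ℝ (⊤ : ℕ∞) (fun z : ℂ => ‖z‖ ^ 2) := contDiff_norm_sq ℝ
  have h1 : ContDiff ℝ (⊤ : ℕ∞) (fun z : ℂ => prof α η (‖z‖ ^ 2)) := by
    unfold prof
    apply ContDiff.mul
    · apply ContDiff.rpow_const_of_ne (h0.add contDiff_const)
      intro z
      positivity
    · exact chi_contDiff.comp h0
  exact contDiff_id.mul (Complex.ofRealCLM.contDiff.comp h1)

lemma ft_support (α η : ℝ) : HasCompactSupport (ft α η) := by
  apply HasCompactSupport.intro (isCompact_closedBall (0 : ℂ) 2)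
  intro z hz
  have h1 : 2 < ‖z‖ := by
    simpa using hz
  have h2 : (2 : ℝ) ≤ ‖z‖ ^ 2 := by nlinarith
  unfold ft prof
  rw [chi_zero h2]
  simp

lemma dz_ft (α : ℝ) {η : ℝ} (hη : 0 < η) (z : ℂ) :
    dz (ft α η) z = ((prof α η (‖z‖ ^ 2) + ‖z‖ ^ 2 * prof' α η (‖z‖ ^ 2) : ℝ) : ℂ) :=
  dz_radial _ _ z (prof_hasDeriv α (by positivity))

lemma dzb_ft (α : ℝ) {η : ℝ} (hη : 0 < η) (z : ℂ) :
    dzb (ft α η) z = z ^ 2 * ((prof' α η (‖z‖ ^ 2) : ℝ) : ℂ) :=
  dzb_radial _ _ z (prof_hasDeriv α (by positivity))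

/-- lower bound for `dz` in the unit disc -/
lemma dz_lower {α η : ℝ} (h0 : 0 < α) (h1 : α < 1) (hη : 0 < η) (z : ℂ) (hz : ‖z‖ < 1) :
    (1 - α) * (‖z‖ ^ 2 + η) ^ (-α) ≤ ‖dz (ft α η) z‖ := by
  rw [dz_ft α hη, Complex.norm_real, Real.norm_eq_abs]
  refine le_trans ?_ (le_abs_self _)
  set s := ‖z‖ ^ 2 with hs
  have hs0 : 0 ≤ s := by positivity
  have hs1 : s < 1 := by
    rw [hs]
    have := norm_nonneg z
    nlinarith
  unfold prof prof'
  rw [chi_one hs1.le, chi_deriv_zero hs1]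
  have hp : 0 < s + η := by linarith
  have h2 : (s + η) ^ (-α - 1) * (s + η) = (s + η) ^ (-α) := by
    rw [← Real.rpow_add_one hp.ne']
    ring_nf
  have h3 : 0 < (s + η) ^ (-α - 1) := Real.rpow_pos_of_pos hp _
  rw [← h2]
  nlinarith [mul_pos (mul_pos h0 hη) h3]

/-- upper bound for `dzb` in the unit disc -/
lemma dzb_upper {α η : ℝ} (h0 : 0 < α) (hη : 0 < η) (z : ℂ) (hz : ‖z‖ < 1) :
    ‖dzb (ft α η) z‖ ≤ α * (‖z‖ ^ 2 + η) ^ (-α) := by
  rw [dzb_ft α hη, norm_mul, norm_pow, Complex.norm_real, Real.norm_eq_abs]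
  set s := ‖z‖ ^ 2 with hs
  have hs0 : 0 ≤ s := by positivity
  have hs1 : s < 1 := by
    rw [hs]
    have := norm_nonneg z
    nlinarith
  unfold prof'
  rw [chi_one hs1.le, chi_deriv_zero hs1]
  have hp : 0 < s + η := by linarith
  have h2 : (s + η) ^ (-α - 1) * (s + η) = (s + η) ^ (-α) := by
    rw [← Real.rpow_add_one hp.ne']
    ring_nf
  have h3 : 0 < (s + η) ^ (-α - 1) := Real.rpow_pos_of_pos hp _
  have h4 : -α * (s + η) ^ (-α - 1) * 1 + (s + η) ^ (-α) * 0 = -(α * (s + η) ^ (-α - 1)) := by ring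
  rw [h4, abs_neg, abs_of_pos (mul_pos h0 h3), ← h2]
  nlinarith [mul_pos (mul_pos h0 hη) h3]

/-- bound for `dzb` outside the unit disc -/
lemma dzb_outer {α η B : ℝ} (h0 : 0 < α) (h1 : α < 1) (hη : 0 < η) (hB0 : 0 ≤ B)
    (hB : ∀ s ∈ Icc (1 : ℝ) 2, |deriv chi s| ≤ B) (z : ℂ) (hz : 1 ≤ ‖z‖) :
    ‖dzb (ft α η) z‖ ≤ indicator (Metric.ball (0 : ℂ) 2) (fun _ => 2 * (1 + B)) z := by
  rw [dzb_ft α hη, norm_mul, norm_pow, Complex.norm_real, Real.norm_eq_abs]
  set s := ‖z‖ ^ 2 with hs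
  have hs1 : 1 ≤ s := by
    rw [hs]
    nlinarith
  rcases le_or_gt s 2 with h2 | h2
  · have hz2 : z ∈ Metric.ball (0 : ℂ) 2 := by
      rw [mem_ball_zero_iff]
      nlinarith
    rw [indicator_of_mem hz2]
    have hp : 1 ≤ s + η := by linarith
    have h3 : (s + η) ^ (-α - 1) ≤ 1 := Real.rpow_le_one_of_one_le_of_nonpos hp (by linarith)
    have h4 : (s + η) ^ (-α) ≤ 1 := Real.rpow_le_one_of_one_le_of_nonpos hp (by linarith)
    have h3' : 0 ≤ (s + η) ^ (-α - 1) := Real.rpow_nonneg (by linarith) _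
    have h4' : 0 ≤ (s + η) ^ (-α) := Real.rpow_nonneg (by linarith) _
    have h5 : |prof' α η s| ≤ 1 + B := by
      unfold prof'
      refine (abs_add_le _ _).trans ?_
      have e1 : |-α * (s + η) ^ (-α - 1) * chi s| ≤ 1 := by
        rw [abs_mul, abs_mul, abs_neg, abs_of_pos h0, abs_of_nonneg h3', abs_of_nonneg (chi_nonneg s)]
        calc α * (s + η) ^ (-α - 1) * chi s ≤ 1 * 1 * 1 := by
              apply mul_le_mul (mul_le_mul h1.le h3 h3' zero_le_one) (chi_le s) (chi_nonneg s)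
              norm_num
          _ = 1 := by norm_num
      have e2 : |(s + η) ^ (-α) * deriv chi s| ≤ B := by
        rw [abs_mul, abs_of_nonneg h4']
        calc (s + η) ^ (-α) * |deriv chi s| ≤ 1 * B :=
              mul_le_mul h4 (hB s ⟨hs1, h2⟩) (abs_nonneg _) zero_le_one
          _ = B := one_mul B
      linarith
    exact mul_le_mul h2 h5 (abs_nonneg _) zero_le_two
  · have h3 : prof' α η s = 0 := by
      unfold prof'
      rw [chi_zero h2.le, chi_deriv_zero' h2]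
      ring
    rw [h3, abs_zero, mul_zero]
    apply indicator_nonneg
    intro _ _
    positivity

/-! ### integrals -/

noncomputable def An (η : ℝ) : ENNReal :=
  ∫⁻ z in Metric.ball (0 : ℂ) 1, ENNReal.ofReal (1 / (‖z‖ ^ 2 + η))

lemma An_ne_top {η : ℝ} (hη : 0 < η) : An η ≠ ⊤ := by
  unfold An
  apply ne_of_lt
  calc ∫⁻ z in Metric.ball (0 : ℂ) 1, ENNReal.ofReal (1 / (‖z‖ ^ 2 + η))
      ≤ ∫⁻ _ in Metric.ball (0 : ℂ) 1, ENNReal.ofReal (1 / η) := by
        apply lintegral_mono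
        intro z
        apply ENNReal.ofReal_le_ofReal
        apply one_div_le_one_div_of_le hη
        have : 0 ≤ ‖z‖ ^ 2 := by positivity
        linarith
    _ < ⊤ := by
        rw [setLIntegral_const]
        exact ENNReal.mul_lt_top ENNReal.ofReal_lt_top measure_ball_lt_top

/-- dyadic annuli -/
def ann (k : ℕ) : Set ℂ := Metric.ball 0 ((1 / 2 : ℝ) ^ k) \ Metric.ball 0 ((1 / 2 : ℝ) ^ (k + 1))

lemma ann_measurable (k : ℕ) : MeasurableSet (ann k) :=
  measurableSet_ball.diff measurableSet_ball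

lemma ann_volume (k : ℕ) : volume (ann k) = ENNReal.ofReal (3 / 4 * Real.pi * (1 / 4) ^ k) := by
  unfold ann
  rw [measure_sdiff (Metric.ball_subset_ball (by
    rw [pow_succ]
    have : (0 : ℝ) < (1 / 2) ^ k := by positivity
    linarith)) measurableSet_ball.nullMeasurableSet measure_ball_lt_top.ne]
  rw [Complex.volume_ball, Complex.volume_ball]
  have hpi : ((NNReal.pi : NNReal) : ENNReal) = ENNReal.ofReal Real.pi := by
    rw [← NNReal.coe_real_pi, ENNReal.ofReal_coe_nnreal]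
  rw [hpi, ← ENNReal.ofReal_pow (by positivity), ← ENNReal.ofReal_pow (by positivity),
    ← ENNReal.ofReal_mul (by positivity), ← ENNReal.ofReal_mul (by positivity),
    ← ENNReal.ofReal_sub _ (by positivity)]
  congr 1
  have e1 : ((1 / 2 : ℝ) ^ k) ^ 2 = (1 / 4) ^ k := by
    rw [← pow_mul, mul_comm, pow_mul]
    norm_num
  have e2 : ((1 / 2 : ℝ) ^ (k + 1)) ^ 2 = (1 / 4) ^ k / 4 := by
    rw [← pow_mul, mul_comm, pow_mul, pow_succ]
    norm_num
    ring
  rw [e1, e2]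
  ring

lemma ann_disjoint : Pairwise (Function.onFun Disjoint ann) := by
  have key : ∀ i j : ℕ, i < j → Disjoint (ann i) (ann j) := by
    intro i j hij
    rw [Set.disjoint_left]
    intro z hz hz'
    apply hz.2
    refine Metric.ball_subset_ball ?_ hz'.1
    exact pow_le_pow_of_le_one (by norm_num) (by norm_num) hij
  intro i j hij
  rcases lt_or_gt_of_ne hij with h | h
  · exact key i j h
  · exact (key j i h).symm

lemma ann_lower (n k : ℕ) (hk : k < n) :
    1 ≤ ∫⁻ z in ann k, ENNReal.ofReal (1 / (‖z‖ ^ 2 + (1 / 4) ^ n)) := by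
  have h4 : (0 : ℝ) < (1 / 4) ^ k := by positivity
  calc (1 : ENNReal) ≤ ENNReal.ofReal (1 / (2 * (1 / 4) ^ k)) * volume (ann k) := by
        rw [ann_volume, ← ENNReal.ofReal_mul (by positivity), ← ENNReal.ofReal_one]
        apply ENNReal.ofReal_le_ofReal
        have e : 1 / (2 * (1 / 4 : ℝ) ^ k) * (3 / 4 * Real.pi * (1 / 4) ^ k) = 3 / 8 * Real.pi := by
          field_simp
          ring
        rw [e]
        have := Real.pi_gt_three
        linarith
    _ = ∫⁻ _ in ann k, ENNReal.ofReal (1 / (2 * (1 / 4) ^ k)) := by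
        rw [setLIntegral_const]
    _ ≤ _ := by
        apply setLIntegral_mono' (ann_measurable k)
        intro z hz
        apply ENNReal.ofReal_le_ofReal
        apply one_div_le_one_div_of_le
        · positivity
        · have h1 : ‖z‖ < (1 / 2 : ℝ) ^ k := by
            have := hz.1
            rwa [mem_ball_zero_iff] at this
          have h2 : ‖z‖ ^ 2 ≤ (1 / 4 : ℝ) ^ k := by
            have e1 : ((1 / 2 : ℝ) ^ k) ^ 2 = (1 / 4) ^ k := by
              rw [← pow_mul, mul_comm, pow_mul]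
              norm_num
            rw [← e1]
            exact pow_le_pow_left₀ (norm_nonneg z) h1.le 2
          have h3 : (1 / 4 : ℝ) ^ n ≤ (1 / 4) ^ k :=
            pow_le_pow_of_le_one (by norm_num) (by norm_num) hk.le
          linarith

lemma An_lower (n : ℕ) : (n : ENNReal) ≤ An ((1 / 4) ^ n) := by
  unfold An
  have hsub : (⋃ k ∈ Finset.range n, ann k) ⊆ Metric.ball (0 : ℂ) 1 := by
    intro z hz
    simp only [mem_iUnion] at hz
    obtain ⟨k, _, hz⟩ := hz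
    exact Metric.ball_subset_ball (pow_le_one₀ (by norm_num) (by norm_num)) hz.1
  calc (n : ENNReal) = ∑ _ ∈ Finset.range n, (1 : ENNReal) := by simp
    _ ≤ ∑ k ∈ Finset.range n, ∫⁻ z in ann k, ENNReal.ofReal (1 / (‖z‖ ^ 2 + (1 / 4) ^ n)) :=
        Finset.sum_le_sum fun k hk => ann_lower n k (Finset.mem_range.1 hk)
    _ = ∫⁻ z in ⋃ k ∈ Finset.range n, ann k, ENNReal.ofReal (1 / (‖z‖ ^ 2 + (1 / 4) ^ n)) := by
        rw [lintegral_biUnion_finset]
        · intro i _ j _ hij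
          exact ann_disjoint hij
        · intro k _
          exact ann_measurable k
    _ ≤ _ := lintegral_mono_set hsub

lemma num_lower {p η : ℝ} (hp : 2 < p) (hη : 0 < η) :
    ENNReal.ofReal ((1 - 1 / p) ^ p) * An η ≤ ∫⁻ z, ‖dz (ft (1 / p) η) z‖ₑ ^ p := by
  have hp0 : 0 < p := by linarith
  have ha0 : 0 < 1 / p := by positivity
  have ha1 : 1 / p < 1 := by rw [div_lt_one hp0]; linarith
  unfold An
  rw [← lintegral_const_mul' _ _ ENNReal.ofReal_ne_top]
  refine le_trans ?_ (setLIntegral_le_lintegral (Metric.ball (0 : ℂ) 1) _)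
  apply setLIntegral_mono' measurableSet_ball
  intro z hz
  rw [mem_ball_zero_iff] at hz
  rw [← ofReal_norm, ENNReal.ofReal_rpow_of_nonneg (norm_nonneg _) hp0.le,
    ← ENNReal.ofReal_mul (Real.rpow_nonneg (by linarith) _)]
  apply ENNReal.ofReal_le_ofReal
  have h1 := dz_lower ha0 ha1 hη z hz
  have hs : 0 < ‖z‖ ^ 2 + η := by positivity
  have h2 : ((1 - 1 / p) * (‖z‖ ^ 2 + η) ^ (-(1 / p))) ^ p =
      (1 - 1 / p) ^ p * (1 / (‖z‖ ^ 2 + η)) := by
    rw [Real.mul_rpow (by linarith) (Real.rpow_nonneg hs.le _), ← Real.rpow_mul hs.le,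
      show -(1 / p) * p = -1 by field_simp, Real.rpow_neg_one]
    simp only [one_div]
  rw [← h2]
  exact Real.rpow_le_rpow (mul_nonneg (by linarith) (Real.rpow_nonneg hs.le _)) h1 hp0.le

lemma den_upper {p η B : ℝ} (hp : 2 < p) (hη : 0 < η) (hB0 : 0 ≤ B)
    (hB : ∀ s ∈ Icc (1 : ℝ) 2, |deriv chi s| ≤ B) :
    ∫⁻ z, ‖dzb (ft (1 / p) η) z‖ₑ ^ p ≤ ENNReal.ofReal ((1 / p) ^ p) * An η +
      ENNReal.ofReal ((2 * (1 + B)) ^ p) * volume (Metric.ball (0 : ℂ) 2) := by
  have hp0 : 0 < p := by linarith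
  have ha0 : 0 < 1 / p := by positivity
  have ha1 : 1 / p < 1 := by rw [div_lt_one hp0]; linarith
  rw [← lintegral_add_compl _ (measurableSet_ball (x := (0 : ℂ)) (ε := 1))]
  apply add_le_add
  · unfold An
    rw [← lintegral_const_mul' _ _ ENNReal.ofReal_ne_top]
    apply setLIntegral_mono' measurableSet_ball
    intro z hz
    rw [mem_ball_zero_iff] at hz
    rw [← ofReal_norm, ENNReal.ofReal_rpow_of_nonneg (norm_nonneg _) hp0.le,
      ← ENNReal.ofReal_mul (by positivity)]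
    apply ENNReal.ofReal_le_ofReal
    have h1 := dzb_upper ha0 hη z hz
    have hs : 0 < ‖z‖ ^ 2 + η := by positivity
    have h2 : (1 / p * (‖z‖ ^ 2 + η) ^ (-(1 / p))) ^ p = (1 / p) ^ p * (1 / (‖z‖ ^ 2 + η)) := by
      rw [Real.mul_rpow ha0.le (Real.rpow_nonneg hs.le _), ← Real.rpow_mul hs.le,
        show -(1 / p) * p = -1 by field_simp, Real.rpow_neg_one]
      simp only [one_div]
    rw [← h2]
    exact Real.rpow_le_rpow (norm_nonneg _) h1 hp0.le
  · rw [← setLIntegral_const, ← lintegral_indicator measurableSet_ball]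
    refine le_trans ?_ (setLIntegral_le_lintegral (Metric.ball (0 : ℂ) 1)ᶜ _)
    apply setLIntegral_mono' measurableSet_ball.compl
    intro z hz
    have hz1 : 1 ≤ ‖z‖ := by
      rw [mem_compl_iff, mem_ball_zero_iff, not_lt] at hz
      exact hz
    have h1 := dzb_outer ha0 ha1 hη hB0 hB z hz1
    rw [← ofReal_norm, ENNReal.ofReal_rpow_of_nonneg (norm_nonneg _) hp0.le]
    by_cases h2 : z ∈ Metric.ball (0 : ℂ) 2
    · rw [indicator_of_mem h2] at h1 ⊢
      apply ENNReal.ofReal_le_ofReal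
      exact Real.rpow_le_rpow (norm_nonneg _) h1 hp0.le
    · rw [indicator_of_notMem h2] at h1 ⊢
      have h3 : ‖dzb (ft (1 / p) η) z‖ = 0 := le_antisymm h1 (norm_nonneg _)
      rw [h3, Real.zero_rpow hp0.ne']
      simp

lemma eLpNorm_pow {p : ℝ} (hp : 2 < p) (f : ℂ → ℂ) :
    eLpNorm f (ENNReal.ofReal p) (volume : Measure ℂ) ^ p = ∫⁻ z, ‖f z‖ₑ ^ p := by
  have hp0 : 0 < p := by linarith
  rw [eLpNorm_eq_lintegral_rpow_enorm_toReal (by simpa using hp0) ENNReal.ofReal_ne_top,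
    ENNReal.toReal_ofReal hp0.le, ← ENNReal.rpow_mul, one_div, inv_mul_cancel₀ hp0.ne',
    ENNReal.rpow_one]

/-- IW-LB -/
theorem main : S_LB := by
  intro p hp C hC
  have hp0 : 0 < p := by linarith
  by_contra hlt
  rw [not_le] at hlt
  have hCtop : C ≠ ⊤ := (hlt.trans ENNReal.ofReal_lt_top).ne
  obtain ⟨c, hc0, hc⟩ : ∃ c : ℝ, 0 ≤ c ∧ C = ENNReal.ofReal c :=
    ⟨C.toReal, ENNReal.toReal_nonneg, (ENNReal.ofReal_toReal hCtop).symm⟩
  have hcp : c < p - 1 := by
    rw [hc] at hlt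
    exact (ENNReal.ofReal_lt_ofReal_iff (by linarith)).1 hlt
  obtain ⟨B, hB0, hB⟩ := chi_deriv_bound
  set K : ℝ := (2 * (1 + B)) ^ p * (volume (Metric.ball (0 : ℂ) 2)).toReal with hK
  have hvol : volume (Metric.ball (0 : ℂ) 2) ≠ ⊤ := measure_ball_lt_top.ne
  have hK0 : 0 ≤ K := by positivity
  -- the inequality for every `η`
  have key : ∀ η : ℝ, 0 < η →
      (1 - 1 / p) ^ p * (An η).toReal ≤ c ^ p * ((1 / p) ^ p * (An η).toReal + K) := by
    intro η hη
    have h1 := hC (ft (1 / p) η) (ft_contDiff _ hη) (ft_support _ _)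
    have h2 := ENNReal.rpow_le_rpow h1 hp0.le
    rw [ENNReal.mul_rpow_of_nonneg _ _ hp0.le, eLpNorm_pow hp, eLpNorm_pow hp, hc,
      ENNReal.ofReal_rpow_of_nonneg hc0 hp0.le] at h2
    have h3 := (num_lower hp hη).trans (h2.trans (mul_le_mul_right (den_upper hp hη hB0 hB) _))
    have hA : An η = ENNReal.ofReal (An η).toReal := (ENNReal.ofReal_toReal (An_ne_top hη)).symm
    have hv : volume (Metric.ball (0 : ℂ) 2) =
      ENNReal.ofReal (volume (Metric.ball (0 : ℂ) 2)).toReal := (ENNReal.ofReal_toReal hvol).symm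
    rw [hA, hv] at h3
    have ha1 : 0 ≤ 1 - 1 / p := by
      have : 1 / p < 1 := by rw [div_lt_one hp0]; linarith
      linarith
    rw [← ENNReal.ofReal_mul (Real.rpow_nonneg ha1 _), ← ENNReal.ofReal_mul (by positivity),
      ← ENNReal.ofReal_mul (by positivity), ← ENNReal.ofReal_add (by positivity) (by positivity),
      ← ENNReal.ofReal_mul (by positivity)] at h3
    exact (ENNReal.ofReal_le_ofReal_iff (by positivity)).1 h3
  -- the coefficient is positive
  have hgap : 0 < (1 - 1 / p) ^ p - c ^ p * (1 / p) ^ p := by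
    rw [← Real.mul_rpow hc0 (by positivity), sub_pos]
    apply Real.rpow_lt_rpow (by positivity) _ hp0
    have e : 1 - 1 / p = (p - 1) * (1 / p) := by field_simp
    rw [e]
    exact mul_lt_mul_of_pos_right hcp (by positivity)
  obtain ⟨n, hn⟩ := exists_nat_gt (c ^ p * K / ((1 - 1 / p) ^ p - c ^ p * (1 / p) ^ p))
  have h1 := key ((1 / 4) ^ n) (by positivity)
  have h2 : (n : ℝ) ≤ (An ((1 / 4) ^ n)).toReal := by
    have h3 := ENNReal.toReal_mono (An_ne_top (η := (1 / 4) ^ n) (by positivity)) (An_lower n)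
    simpa using h3
  rw [div_lt_iff₀ hgap] at hn
  nlinarith

end Pool.Agent.W57.IW.Lb
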